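import Mathlib
import Pool.Agent.Y215.AF.Proj

set_option autoImplicit false

/-!
# Hyperbolic varieties: heights of sums of elements of a group of finite rank, small multipliers

Let `X` be a closed subvariety of projective `n`-space over a number field `k`, given by forms of
degree at most `d`. If `X` is Brody (equivalently Kobayashi) hyperbolic for one embedding of `k` in
`ℂ`, then `X` has no nonconstant rational curve over a number field, and the latter is equivalent to
each of the following statements, for all natural numbers `r`:

* (`HeightsP`) for every finitely generated group `Γ` of algebraic numbers (for instance the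
  `S`-units of a number field) there is `C` such that for all points `x = u_1 V_1 + … + u_r V_r` of
  `X` over `Qbar`, with algebraic numbers `u_j` with a power in `Γ` and ARBITRARY vectors `V_j` over
  `Qbar`: `h(x) ≤ C (1 + h(V))`, where `h` is the absolute logarithmic height;
* (`RationalP`) so for each number field `K` only finitely many points of `X(K)` are of this form with
  `h(V) ≤ B`;
* (`NearP`) for all `Γ` and `V_j`, over the field of ALL algebraic numbers, at most
  `A (1 + h(V)) ^ e` points of `X` are of the form `u_1 s_1 V_1 + … + u_r s_r V_r` with `u_j` with a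
  power in `Γ` and `h(s_1 : … : s_r) < ε(d, r)`;
* (`SmallP`) for all extension fields `L` of `k` and all vectors `v_j` over `L`, at most `M(d, r)`
  points of `X` are of the form `t_1 v_1 + … + t_r v_r` with algebraic numbers `t_j` and
  `h(t_1 : … : t_r) < ε(d, r)`; the bound does not depend on `X`, `k`, `n`, `L` or the vectors. For
  `r = n + 1` this bounds the number of all algebraic points of `X` of height less than `ε`;
* (`TorsP`) for all vectors `v_j` over `Qbar` only finitely many points of `X` are of the form
  `ζ_1 v_1 + … + ζ_r v_r` with roots of unity `ζ_j`;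
* (`UnitSumP`) for all number fields `K ⊇ k` and finite sets `S` of primes of `K`, only finitely many
  points of `X(K)` have homogeneous coordinates which are sums of at most `r` `S`-units.
-/

namespace Pool.Agent.Results.MP_627a61_nt.HyperbolicFiniteRank

open MvPolynomial Pool.Agent.Y215.AF
open Pool.Agent.H458.Sp (BrodyHyperbolic)

theorem result : ∃ (ε : ℕ → ℕ → ℝ) (M : ℕ → ℕ → ℕ), (∀ d r, 1 ≤ d → 0 < ε d r) ∧
    ∀ (k : Type) [Field k] [NumberField k] (n N : ℕ) (P : Fin N → MvPolynomial (Fin (n + 1)) k)
      (d : ℕ), 1 ≤ d → (∀ i, ∃ e, e ≤ d ∧ (P i).IsHomogeneous e) →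
      (∀ σ : k →+* ℂ, BrodyHyperbolic (Set.range fun i => MvPolynomial.map σ (P i)) →
        NoRatK P) ∧
      List.TFAE [NoRatK P, HeightsP P, RationalP P, NearP (ε d) P, SmallP (ε d) (M d) P, TorsP P,
        UnitSumP P] := by
  refine ⟨epsN, bndM, epsN_pos, fun k _ _ n N P d hd hP => ⟨fun σ hσ => ?_, ?_⟩⟩
  · exact brody_noRatK σ P (fun i => (hP i).imp fun e h => h.2) hσ
  · have hP' : ∀ i, ∃ e, (P i).IsHomogeneous e := fun i => (hP i).imp fun e h => h.2
    tfae_have 1 → 2 := heightsP P hP'
    tfae_have 2 → 3 := rationalP P
    tfae_have 3 → 7 := unit_of_rational P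
    tfae_have 7 → 1 := noRat_of_units P
    tfae_have 1 → 4 := nearP P d hd hP
    tfae_have 4 → 7 := unit_of_near P (epsN d) (fun r => epsN_pos d r hd)
    tfae_have 1 → 5 := smallP P d hd hP
    tfae_have 5 → 6 := torsP_of_smallP P (epsN d) (fun r => epsN_pos d r hd) (bndM d)
    tfae_have 6 → 1 := noRat_of_tors P
    tfae_finish

end Pool.Agent.Results.MP_627a61_nt.HyperbolicFiniteRank
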