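import Pool.Agent.Y738.RC.GenFin

/-!
# Random complete intersections have no rational or algebraic points of small height

`X_c ⊂ ℙⁿ`, `c` integral, is given by `s` equations of degrees `d_1, …, d_s`

  `F_i + ∑_{α ∈ S_i} c_{i,α} x^α = 0`, `i = 1, …, s`,   `c_{i,α} ∈ ℤ`, `|c_{i,α}| ≤ H`.

Here the `F_i` are ARBITRARY fixed forms of degree `d_i` with complex coefficients (for instance
`0`), and `S_i` is any set of monomials of degree `d_i` which contains the monomials in at most two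
of the variables (for instance the set of all monomials of degree `d_i`; then the `X_c` with
`F = 0` are all complete intersections with integral coefficients of size at most `H`). Put
`D = ∑ d_i` and let `N = (2H+1)^(∑ |S_i|)` be the number of the `X_c`. All constants depend only on
`n`, the degrees and `r`; they do not depend on `F`, `S`, `H`.

1. If `D > n (r + 1)`: for EVERY finite set `P` of algebraic points of degree at most `r` (of any
   heights, over any number fields) at most `C (N / H^s) (1 + |P| / H^D)` of the `X_c` meet `P`.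
2. If `D > n (r + 1)`, then all but at most `C N / H^s` of the `X_c` have no algebraic point of
   degree at most `r` and height at most `H^(D / (n (r + 1)))`. (The height of a point is here the
   largest of the heights of its coordinate ratios, where the height of an algebraic number is the
   least maximum of the coefficients of an integer polynomial of degree at most `r` vanishing at
   it.)
3. If `D > 2 n`, then all but at most `C N / H^s` of the `X_c` have no rational point of height at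
   most `H^(D / (n + 1))`.
4. If `D > n + 1` (so that the smooth `X_c` are precisely the complete intersections of general
   type), then all but at most `C N / H^s` of the `X_c` have no rational point of height at most
   `H`.

The exponent of `H^s` cannot be improved: for `F = 0` the point `(1 : 0 : ⋯ : 0)` lies on
`N / (2H+1)^s` of the `X_c`. For `D` large in terms of `n` the general `X_c` is Kobayashi
hyperbolic, and then, by the conjecture of Lang, `X_c` has only finitely many points over each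
number field.
-/

set_option autoImplicit false

namespace Pool.Agent.Results.MP_627a61_nt.RandomCompleteIntersections

open Polynomial

noncomputable section

/-- the monomial `x ^ α = ∏ x_k ^ α_k` -/
def monom {n : ℕ} (α : Fin (n + 1) → ℕ) (x : Fin (n + 1) → ℂ) : ℂ := ∏ k, x k ^ α k

/-- the point with homogeneous coordinates `x` lies on
`X_c : F_i + ∑_{α ∈ S_i} c_{i,α} x^α = 0`, `i = 1, …, s` -/
def OnX {n s : ℕ} (F : Fin s → MvPolynomial (Fin (n + 1)) ℂ)
    (S : Fin s → Finset (Fin (n + 1) → ℕ)) (c : (i : Fin s) → S i → ℤ)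
    (x : Fin (n + 1) → ℂ) : Prop :=
  ∀ i, MvPolynomial.eval x (F i) + ∑ α : S i, (c i α : ℂ) * monom α.1 x = 0

/-- the number of the `X_c`, `|c_{i,α}| ≤ H`, containing a point with the property `Q` -/
def number {n s : ℕ} (F : Fin s → MvPolynomial (Fin (n + 1)) ℂ)
    (S : Fin s → Finset (Fin (n + 1) → ℕ)) (H : ℕ) (Q : (Fin (n + 1) → ℂ) → Prop) : ℕ :=
  Set.ncard {c : (i : Fin s) → S i → ℤ | (∀ i α, |c i α| ≤ H) ∧ ∃ x, Q x ∧ OnX F S c x}

/-- `x` represents an algebraic point: for some coordinate `x_j ≠ 0` all ratios `x_k / x_j` are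
algebraic of degree at most `r` (in particular all points defined over some number field of degree
at most `r`) -/
def Algebraic {n : ℕ} (r : ℕ) (x : Fin (n + 1) → ℂ) : Prop :=
  ∃ j, x j ≠ 0 ∧ ∀ k, ∃ q : ℤ[X], q ≠ 0 ∧ q.natDegree ≤ r ∧ aeval (x k / x j) q = 0

/-- the same, the polynomials having coefficients of absolute value at most `B` -/
def AlgebraicOfHeight {n : ℕ} (r B : ℕ) (x : Fin (n + 1) → ℂ) : Prop :=
  ∃ j, x j ≠ 0 ∧ ∀ k, ∃ q : ℤ[X], q ≠ 0 ∧ q.natDegree ≤ r ∧ (∀ m, |q.coeff m| ≤ B) ∧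
    aeval (x k / x j) q = 0

/-- `x` represents a rational point of height at most `B`: integral homogeneous coordinates of
absolute value at most `B` -/
def RationalOfHeight {n : ℕ} (B : ℕ) (x : Fin (n + 1) → ℂ) : Prop :=
  ∃ z : Fin (n + 1) → ℤ, z ≠ 0 ∧ (∀ k, |z k| ≤ B) ∧ x = fun k => (z k : ℂ)

theorem result (n s : ℕ) (hn : 1 ≤ n) (d : Fin s → ℕ) (hd : ∀ i, 1 ≤ d i) :
    ∃ C : ℕ → ℝ, ∀ F : Fin s → MvPolynomial (Fin (n + 1)) ℂ, (∀ i, (F i).IsHomogeneous (d i)) →
      ∀ S : Fin s → Finset (Fin (n + 1) → ℕ), (∀ i, ∀ α ∈ S i, ∑ k, α k = d i) →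
      (∀ i, ∀ α : Fin (n + 1) → ℕ, ∑ k, α k = d i → (∃ a b, ∀ k, k ≠ a → k ≠ b → α k = 0) →
        α ∈ S i) →
      ∀ H : ℕ, 1 ≤ H →
      (∀ r : ℕ, n * (r + 1) < ∑ i, d i →
        ∀ P : Finset (Fin (n + 1) → ℂ), (∀ x ∈ P, Algebraic r x) →
          (number F S H (fun x => x ∈ P) : ℝ) ≤
            C r * ((2 * H + 1 : ℝ) ^ (∑ i, (S i).card) / (H : ℝ) ^ s) *
              (1 + P.card / (H : ℝ) ^ (∑ i, d i))) ∧
      (∀ r B : ℕ, n * (r + 1) < ∑ i, d i → B ^ (n * (r + 1)) ≤ H ^ (∑ i, d i) →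
          (number F S H (AlgebraicOfHeight r B) : ℝ) ≤
            C r * ((2 * H + 1 : ℝ) ^ (∑ i, (S i).card) / (H : ℝ) ^ s)) ∧
      (∀ B : ℕ, 2 * n < ∑ i, d i → B ^ (n + 1) ≤ H ^ (∑ i, d i) →
          (number F S H (RationalOfHeight B) : ℝ) ≤
            C 1 * ((2 * H + 1 : ℝ) ^ (∑ i, (S i).card) / (H : ℝ) ^ s)) ∧
      (n + 1 < ∑ i, d i →
          (number F S H (RationalOfHeight H) : ℝ) ≤
            C 0 * ((2 * H + 1 : ℝ) ^ (∑ i, (S i).card) / (H : ℝ) ^ s)) := by
  set D := ∑ i, d i with hD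
  let C1 : ℕ → ℝ := fun r => Y738.RC.Cst n r d
  let C2 : ℕ → ℝ := fun r => Y738.RC.Cst n r d * (1 + (n + 1) * (3 ^ (r + 1) * r) ^ n)
  let C3 : ℝ := Y738.RC.Cst n 1 d * (1 + 3 ^ (n + 1))
  let C4 : ℝ := 2 ^ (n * D) * (3 ^ (n + 1) * 2 ^ (n + 1 + 1))
  have h1 : ∀ r, 0 < C1 r := fun r => Y738.RC.Cst_pos n r d
  have h2 : ∀ r, 0 < C2 r := fun r => by
    have := Y738.RC.Cst_pos n r d
    simp only [C2]; positivity
  have h3 : 0 < C3 := by
    have := Y738.RC.Cst_pos n 1 d
    simp only [C3]; positivity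
  have h4 : 0 < C4 := by simp only [C4]; positivity
  refine ⟨fun r => C1 r + C2 r + C3 + C4, fun F hF S hS hS2 H hH => ⟨?_, ?_, ?_, ?_⟩⟩
  · intro r hr P hP
    have hHR : (0 : ℝ) < (H : ℝ) ^ s := by positivity
    have h := Y738.RC.bad_le hn r H d hd hH hr F hF S hS hS2 P hP
    change (((Y738.RC.bad F S H (fun x => x ∈ P)).ncard : ℕ) : ℝ) ≤ _
    have h5 := (le_div_iff₀ hHR).2 h
    refine h5.trans ?_
    have h6 : C1 r ≤ C1 r + C2 r + C3 + C4 := by linarith [h2 r]
    calc C1 r * (2 * H + 1 : ℝ) ^ (∑ i, (S i).card) * (1 + P.card / (H : ℝ) ^ D) / (H : ℝ) ^ s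
        = C1 r * ((2 * H + 1 : ℝ) ^ (∑ i, (S i).card) / (H : ℝ) ^ s) *
          (1 + P.card / (H : ℝ) ^ D) := by ring
      _ ≤ _ := by gcongr
  · intro r B hr hB
    have hHR : (0 : ℝ) < (H : ℝ) ^ s := by positivity
    have h := Y738.RC.small_le hn r H B d hd hH hr hB F hF S hS hS2
    change (((Y738.RC.bad F S H (Y738.RC.SmallPt r B)).ncard : ℕ) : ℝ) ≤ _
    have h5 := (le_div_iff₀ hHR).2 h
    refine h5.trans ?_
    have h6 : C2 r ≤ C1 r + C2 r + C3 + C4 := by linarith [h1 r]
    calc C2 r * (2 * H + 1 : ℝ) ^ (∑ i, (S i).card) / (H : ℝ) ^ s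
        = C2 r * ((2 * H + 1 : ℝ) ^ (∑ i, (S i).card) / (H : ℝ) ^ s) := by ring
      _ ≤ _ := by gcongr
  · intro B hr hB
    have hHR : (0 : ℝ) < (H : ℝ) ^ s := by positivity
    have h := Y738.RC.rat_le hn H B d hd hH hr hB F hF S hS hS2
    change (((Y738.RC.bad F S H (Y738.RC.RatPt B)).ncard : ℕ) : ℝ) ≤ _
    have h5 := (le_div_iff₀ hHR).2 h
    refine h5.trans ?_
    have h6 : C3 ≤ C1 1 + C2 1 + C3 + C4 := by linarith [h1 1, h2 1]
    calc C3 * (2 * H + 1 : ℝ) ^ (∑ i, (S i).card) / (H : ℝ) ^ s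
        = C3 * ((2 * H + 1 : ℝ) ^ (∑ i, (S i).card) / (H : ℝ) ^ s) := by ring
      _ ≤ _ := by gcongr
  · intro hr
    have hHR : (0 : ℝ) < (H : ℝ) ^ s := by positivity
    have h := Y738.RC.gen_le hn H d hH hr F hF S hS hS2
    change (((Y738.RC.bad F S H (Y738.RC.RatPt H)).ncard : ℕ) : ℝ) ≤ _
    have h5 := (le_div_iff₀ hHR).2 h
    refine h5.trans ?_
    have h6 : C4 ≤ C1 0 + C2 0 + C3 + C4 := by linarith [h1 0, h2 0]
    calc C4 * (2 * H + 1 : ℝ) ^ (∑ i, (S i).card) / (H : ℝ) ^ s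
        = C4 * ((2 * H + 1 : ℝ) ^ (∑ i, (S i).card) / (H : ℝ) ^ s) := by ring
      _ ≤ _ := by gcongr

end

end Pool.Agent.Results.MP_627a61_nt.RandomCompleteIntersections
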