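import Mathlib
import Pool.Agent.Y902.GN.Cov

/-!
# Rational points on hypersurfaces which are sums of few high powers of linear forms

For all `n`, `m`, `E` and `ε > 0` there are `R` and `δ > 0` such that for every `Y ≥ 1`, every degree
`d` with `R ≤ d ≤ Y ^ δ`, all integers `u 1, …, u m` of absolute value at most `exp (Y ^ δ)` and all
linear forms `h 1, …, h m` in `n` variables with integer coefficients of absolute value at most
`Y ^ E` the following holds for the hypersurfaces `X s : ∑ u i * s i * h i ^ d = 0` of `P ^ (n - 1)`,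
where the `s i` are integers with `0 < |s i| ≤ Y ^ E`.

* There are at most `Y ^ ε` linear subspaces, defined over `ℚ`, such that every rational point of
  height at most `Y` on any `X s` lies in one of them that is contained in `X s`.
* All `X s` that are Brody hyperbolic (equivalently, Kobayashi hyperbolic) together have at most
  `Y ^ ε` rational points of height at most `Y`.

For general linear forms and large `d` the hypersurfaces are hyperbolic if `m ≥ 4 n - 7`
(Siu and Yeung, Shiffman and Zaidenberg).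

Method: a set of points that are not covered, for `R → ∞` and `δ → 0`, gives in an ultraproduct a
set with a prime ideal of relations with coefficients of polynomial size. The `p`-adic determinant
method, with unbounded exponents as coefficients, shows that the relations between the terms are
stable under the derivations of the function field; the isotypic decomposition shows that in every
minimal vanishing partial sum all ratios of the linear forms are constant on a large subset, and then
the linear subspace defined by these ratios is contained in the hypersurface.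
-/

set_option autoImplicit false

namespace Pool.Agent.Results.MP_627a61_nt.SumsOfPowers

/-- the form `∑ a i * (h i) (x) ^ d` of degree `d` with integer coefficients, over any ring -/
def form {R : Type} [CommRing R] {n m : ℕ} (a : Fin m → ℤ) (h : Fin m → Fin n → ℤ) (d : ℕ)
    (x : Fin n → R) : R := ∑ i, (a i : R) * (∑ j, (h i j : R) * x j) ^ d

/-- the point `x` lies on a line which is defined over `ℚ` and contained in the hypersurface -/
def OnRationalLine {n m : ℕ} (a : Fin m → ℤ) (h : Fin m → Fin n → ℤ) (d : ℕ) (x : Fin n → ℤ) :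
    Prop :=
  ∃ y : Fin n → ℤ, (∀ b c : ℤ, b • x + c • y = 0 → b = 0 ∧ c = 0) ∧
    ∀ b c : ℤ, form a h d (b • x + c • y) = 0

/-- every holomorphic map from `ℂ` to the hypersurface is constant (such a map is given by
holomorphic homogeneous coordinates without common zeros) -/
def BrodyHyperbolic {n m : ℕ} (a : Fin m → ℤ) (h : Fin m → Fin n → ℤ) (d : ℕ) : Prop :=
  ∀ f : ℂ → Fin n → ℂ, (∀ j, Differentiable ℂ fun z => f z j) → (∀ z, f z ≠ 0) →
    (∀ z, form a h d (f z) = 0) → ∀ z w, ∃ c : ℂ, f z = c • f w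

/-- the primitive integer vectors `x` with `|x j| ≤ Y` (every rational point of height at most `Y`
is given by two of them) that lie on a Brody hyperbolic `X s`, for some `s` with
`0 < |s i| ≤ Y ^ E` -/
def HyperbolicPoints (n m E d Y : ℕ) (u : Fin m → ℤ) (h : Fin m → Fin n → ℤ) :
    Set (Fin n → ℤ) :=
  {x | Finset.univ.gcd x = 1 ∧ (∀ j, |x j| ≤ (Y : ℤ)) ∧
    ∃ s : Fin m → ℤ, (∀ i, s i ≠ 0 ∧ |s i| ≤ (Y : ℤ) ^ E) ∧
      form (fun i => u i * s i) h d x = 0 ∧ BrodyHyperbolic (fun i => u i * s i) h d}

open Pool.Agent.Y902.GN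

theorem form_int {n m : ℕ} (u s : Fin m → ℤ) (h : Fin m → Fin n → ℤ) (d : ℕ) (x : Fin n → ℤ) :
    form (fun i => u i * s i) h d x = spF u h d s x := by
  unfold form spF lin
  refine Finset.sum_congr rfl fun i _ => ?_
  simp only [Int.cast_id]
  ring

theorem not_onLine_of_hyperbolic {n m : ℕ} {a : Fin m → ℤ} {h : Fin m → Fin n → ℤ} {d : ℕ}
    (H : BrodyHyperbolic a h d) (x : Fin n → ℤ) : ¬ OnRationalLine a h d x := by
  rintro ⟨y, hy1, hy2⟩
  -- the entire curve
  have hcast : ∀ z : ℤ, form a h d (fun j => (x j : ℂ) + (z : ℂ) * (y j : ℂ)) = 0 := by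
    intro z
    have h1 := congrArg (Int.cast : ℤ → ℂ) (hy2 1 z)
    unfold form at h1 ⊢
    push_cast at h1
    rw [← h1]
    refine Finset.sum_congr rfl fun i _ => ?_
    congr 2
    refine Finset.sum_congr rfl fun j _ => ?_
    simp
  have hall : ∀ z : ℂ, form a h d (fun j => (x j : ℂ) + z * (y j : ℂ)) = 0 := by
    obtain ⟨p, hp⟩ : ∃ p : Polynomial ℂ, ∀ z : ℂ, p.eval z =
        form a h d (fun j => (x j : ℂ) + z * (y j : ℂ)) := by
      refine ⟨∑ i, Polynomial.C (a i : ℂ) * (∑ j, Polynomial.C (h i j : ℂ) *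
        (Polynomial.C (x j : ℂ) + Polynomial.X * Polynomial.C (y j : ℂ))) ^ d, fun z => ?_⟩
      unfold form
      simp [Polynomial.eval_finset_sum]
    have h0 : p = 0 := by
      apply Polynomial.eq_zero_of_infinite_isRoot
      refine Set.Infinite.mono (s := Set.range (Int.cast : ℤ → ℂ)) ?_
        (Set.infinite_range_of_injective Int.cast_injective)
      rintro _ ⟨z, rfl⟩
      show p.eval (z : ℂ) = 0
      rw [hp, hcast]
    intro z
    rw [← hp, h0, Polynomial.eval_zero]
  -- it has no zeros
  have hprop : ∀ α β : ℂ, (∀ j, α * (x j : ℂ) + β * (y j : ℂ) = 0) → α = 0 ∧ β = 0 := by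
    intro α β hαβ
    have hminor : ∃ j k, x j * y k - x k * y j ≠ 0 := by
      by_contra hcon
      push Not at hcon
      by_cases hx : ∀ j, x j = 0
      · have := hy1 1 0 (by funext j; simp [hx j])
        omega
      · push Not at hx
        obtain ⟨j0, hj0⟩ := hx
        have := hy1 (y j0) (-x j0) (by
          funext k
          simp only [Pi.add_apply, Pi.smul_apply, smul_eq_mul, Pi.zero_apply]
          have := hcon j0 k
          linarith)
        omega
    obtain ⟨j, k, hjk⟩ := hminor
    have hjk' : ((x j : ℂ) * (y k : ℂ) - (x k : ℂ) * (y j : ℂ)) ≠ 0 := by exact_mod_cast hjk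
    have h1 := hαβ j
    have h2 := hαβ k
    constructor
    · apply (mul_eq_zero.1 (show α * ((x j : ℂ) * (y k : ℂ) - (x k : ℂ) * (y j : ℂ)) = 0 by
        linear_combination (y k : ℂ) * h1 - (y j : ℂ) * h2)).resolve_right hjk'
    · apply (mul_eq_zero.1 (show β * ((x j : ℂ) * (y k : ℂ) - (x k : ℂ) * (y j : ℂ)) = 0 by
        linear_combination (x j : ℂ) * h2 - (x k : ℂ) * h1)).resolve_right hjk'
  obtain ⟨c, hc⟩ := H (fun z j => (x j : ℂ) + z * (y j : ℂ)) (fun j => by fun_prop)
    (fun z hz => by
      have := hprop 1 z (fun j => by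
        have := congrFun hz j
        simp only [Pi.zero_apply] at this
        rw [one_mul]
        exact this)
      exact one_ne_zero this.1) hall 1 0
  have h3 := hprop (1 - c) 1 (fun j => by
    have := congrFun hc j
    simp only [Pi.smul_apply, smul_eq_mul] at this
    linear_combination this)
  exact one_ne_zero h3.2

theorem form_rat {n m : ℕ} (u s : Fin m → ℤ) (h : Fin m → Fin n → ℤ) (d : ℕ) (z : Fin n → ℚ) :
    form (fun i => u i * s i) h d z = spFQ u h d s z := by
  unfold form spFQ linQ
  refine Finset.sum_congr rfl fun i _ => ?_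
  push_cast
  ring

/-- For all `n`, `m`, `E` and `ε > 0` there are `R` and `δ > 0` such that for all `Y ≥ 1`, all `d`
with `R ≤ d ≤ Y ^ δ`, all integers `|u i| ≤ exp (Y ^ δ)` and all linear forms `h i` with integer
coefficients of absolute value at most `Y ^ E`: the rational points of height at most `Y` of all
`X s` lie in at most `Y ^ ε` rational linear subspaces contained in `X s`, and all Brody hyperbolic
`X s` together have at most `Y ^ ε` such points. -/
theorem result (n m E : ℕ) (ε : ℝ) (hε : 0 < ε) : ∃ (R : ℕ) (δ : ℝ), 0 < δ ∧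
    ∀ (Y d : ℕ) (u : Fin m → ℤ) (h : Fin m → Fin n → ℤ), 1 ≤ Y → R ≤ d →
      (d : ℝ) ≤ (Y : ℝ) ^ δ → (∀ i, ((|u i| : ℤ) : ℝ) ≤ Real.exp ((Y : ℝ) ^ δ)) →
      (∀ i j, |h i j| ≤ (Y : ℤ) ^ E) →
      (∃ L : Finset (Submodule ℚ (Fin n → ℚ)), (L.card : ℝ) ≤ (Y : ℝ) ^ ε ∧
        ∀ (x : Fin n → ℤ) (s : Fin m → ℤ), (∀ j, |x j| ≤ (Y : ℤ)) →
          (∀ i, s i ≠ 0 ∧ |s i| ≤ (Y : ℤ) ^ E) → form (fun i => u i * s i) h d x = 0 →
          ∃ V ∈ L, (fun j => (x j : ℚ)) ∈ V ∧
            ∀ z ∈ V, form (fun i => u i * s i) h d z = 0) ∧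
      ((HyperbolicPoints n m E d Y u h).Finite ∧
        ((HyperbolicPoints n m E d Y u h).ncard : ℝ) ≤ (Y : ℝ) ^ ε) := by
  obtain ⟨R, δ, hδ, H⟩ := sp n m E ε hε
  obtain ⟨R', δ', hδ', H'⟩ := cov n m E ε hε
  have hmono : ∀ {Y : ℕ} {a : ℝ}, 1 ≤ Y → min δ δ' ≤ a → (Y : ℝ) ^ (min δ δ') ≤ (Y : ℝ) ^ a :=
    fun hY ha => Real.rpow_le_rpow_of_exponent_le (by exact_mod_cast hY) ha
  refine ⟨max R R', min δ δ', lt_min hδ hδ', fun Y d u h hY hd hdY hu hh => ⟨?_, ?_⟩⟩
  · obtain ⟨L, hL1, hL2⟩ := H' Y hY d ((le_max_right _ _).trans hd)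
      (hdY.trans (hmono hY (min_le_right _ _))) u
      (fun i => (hu i).trans (Real.exp_le_exp.2 (hmono hY (min_le_right _ _)))) h hh
    refine ⟨L, hL1, fun x s hx hs h0 => ?_⟩
    rw [form_int] at h0
    obtain ⟨V, hV, hxV, hz⟩ := hL2 x s hx hs h0
    refine ⟨V, hV, hxV, fun z hzV => ?_⟩
    rw [form_rat]
    exact hz z hzV
  · refine fin_of_bound _ _ fun T hT => H Y hY d ((le_max_left _ _).trans hd)
      (hdY.trans (hmono hY (min_le_left _ _))) u
      (fun i => (hu i).trans (Real.exp_le_exp.2 (hmono hY (min_le_left _ _)))) h hh T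
      fun x hx => ?_
    obtain ⟨h1, h2, s, h3, h4, h5⟩ := hT x hx
    refine ⟨s, ⟨h2, h1, h3, ?_, ?_⟩⟩
    · rw [← form_int]
      exact h4
    · rintro ⟨y, hy1, hy2⟩
      refine not_onLine_of_hyperbolic h5 x ⟨y, hy1, fun b c => ?_⟩
      rw [form_int]
      exact hy2 b c

end Pool.Agent.Results.MP_627a61_nt.SumsOfPowers
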