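import Pool.Agent.Y377.ST.Uniform
import Pool.Agent.TH717.GO.UE
import Pool.Agent.TH409.SH.Fin2

set_option autoImplicit false

/-!
# Uniform bounds for points given by iterated recurrences on hyperbolic varieties

Let `X` be the closed subset of projective `n`-space over a number field `k` given by the forms in
`FF`, and let `σ` be an embedding of `k` in `ℂ`.  We consider families `x(h)` of points of `X(L)`,
where `L ⊇ k` is a field which can be embedded in `ℂ` and `h` is in an arbitrary group `H`, with
coordinates given by iterated linear recurrences: there are invertible matrices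
`X_1(h), ..., X_s(h)` of size `r` such that, for all `g` in `H`, the matrix `X_l(g h) X_l(h)⁻¹` is for
all `h` a polynomial of degree at most `e` in each of the entries of `X_i(h)`, `X_i(h)⁻¹`, `i < l`,
and the coordinates of `x(h)` are such polynomials in the entries of all these matrices.

(1) If `X_σ` is Brody (equivalently Kobayashi) hyperbolic, then `X_σ` contains no nonconstant
rational curve.

(2) The absence of nonconstant rational curves on `X_σ` is equivalent to: for all `s, r, e` there is
one bound `B` (depending on `X`) for the number of the different points of all these families, for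
all groups `H` and all fields `L`.  For one step, that is for the orbits `M ρ(h) v` of
representations `ρ : H → GL_r(K)`, over number fields `K` of degree at most `D`, an explicit bound is
`∏_{f = 1}^{D} |GL_r(𝔽_{2^f})| |GL_r(𝔽_{3^f})|`, independent of `X` (`DegreeBound`).

Method: if there is no bound, then an ultraproduct of families is an infinite family of points of
`X`, given by iterated recurrences; by the theory of such families (project IR of helper377, with
lemmas of helpers 312, 657, 921, 987, 523, 737, 495, 68, 401, 529) there is a rational curve on `X`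
over an extension of `k`, hence over `ℂ`.  The homomorphism which defines the ultraproduct is due to
helper455 and helper448, the step to polynomial parametrisations to helper837 and helper465.
-/

namespace Pool.Agent.Results.MP_627a61_nt.UniformIterated

open MvPolynomial Pool.Agent.H458.Sp Pool.Agent.TH717.GO Pool.Agent.Y377.ST

/-- For all `s`, `r`, `e` there is one bound for the numbers of the different points of `X(L)` in
the families given by iterated recurrences with `s` steps, matrices of size `r` and polynomials of
degree at most `e` in each variable, for all groups and all fields `L ⊇ k` embeddable in `ℂ`. -/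
def UniformBound {n : ℕ} {k : Type} [Field k] (FF : Finset (MvPolynomial (Fin (n + 1)) k)) :
    Prop :=
  ∀ s r e : ℕ, ∃ B : ℕ, ∀ (L : Type) [Field L] [Algebra k L] (_ : L →+* ℂ) (H : Type) [Group H]
    (x : H → Fin (n + 1) → L), IterVec s r e x → (∀ h, ∀ F ∈ FF, aeval (x h) F = 0) →
      (ptsOf x).encard ≤ (B : ℕ∞)

/-- explicit bound for the orbits of all groups of matrices over number fields of degree at most
`D`: at most `∏_{f = 1}^{D} |GL_r(𝔽_{2^f})| |GL_r(𝔽_{3^f})|` points -/
def DegreeBound {n : ℕ} {k : Type} [Field k] (FF : Finset (MvPolynomial (Fin (n + 1)) k)) : Prop :=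
  ∀ (r D : ℕ) (K : Type) [Field K] [NumberField K] [Algebra k K], Module.finrank ℚ K ≤ D →
    ∀ (H : Type) [Group H] (ρ : H →* Matrix.GeneralLinearGroup (Fin r) K)
      (M : Matrix (Fin (n + 1)) (Fin r) K) (v : Fin r → K),
      (∀ h, ∀ F ∈ FF, aeval (orb M ρ v h) F = 0) →
      (orbitPts M ρ v).encard ≤ (∏ f ∈ Finset.Icc 1 D,
        ((∏ i ∈ Finset.range r, ((2 ^ f) ^ r - (2 ^ f) ^ i)) *
          ∏ i ∈ Finset.range r, ((3 ^ f) ^ r - (3 ^ f) ^ i)) : ℕ)

/-- The families given by iterated recurrences consist of finitely many points. -/
def FamiliesFinite {n : ℕ} {k : Type} [Field k] (FF : Finset (MvPolynomial (Fin (n + 1)) k)) :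
    Prop :=
  ∀ (s r e : ℕ) (L : Type) [Field L] [Algebra k L] (_ : L →+* ℂ) (H : Type) [Group H]
    (x : H → Fin (n + 1) → L), IterVec s r e x → (∀ h, ∀ F ∈ FF, aeval (x h) F = 0) →
      (ptsOf x).Finite

/-- The sequences of points over number fields which are indexed by the integers and given by
recurrences with one step and linear polynomials consist of finitely many points. -/
def SequencesFinite {n : ℕ} {k : Type} [Field k] (FF : Finset (MvPolynomial (Fin (n + 1)) k)) :
    Prop :=
  ∀ (r : ℕ) (L : Type) [Field L] [NumberField L] [Algebra k L]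
    (x : Multiplicative ℤ → Fin (n + 1) → L), IterVec 1 r 1 x →
      (∀ h, ∀ F ∈ FF, aeval (x h) F = 0) → (ptsOf x).Finite

/-- Let `X ⊆ ℙⁿ` be given by the forms in `FF` over the number field `k` and let `σ` be an embedding
of `k` in `ℂ`. (1) If `X_σ` is Brody hyperbolic, it contains no nonconstant rational curve. (2) The
following are equivalent: `X_σ` contains no nonconstant rational curve; `UniformBound`;
`FamiliesFinite`; `SequencesFinite`; `DegreeBound`. -/
theorem result (k : Type) [Field k] [NumberField k] (n : ℕ)
    (FF : Finset (MvPolynomial (Fin (n + 1)) k)) (hhom : ∀ F ∈ FF, ∃ e, F.IsHomogeneous e)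
    (σ : k →+* ℂ) :
    (BrodyHyperbolic ((MvPolynomial.map σ) '' (FF : Set (MvPolynomial (Fin (n + 1)) k))) →
      NoRatC σ (FF : Set (MvPolynomial (Fin (n + 1)) k))) ∧
    List.TFAE [NoRatC σ (FF : Set (MvPolynomial (Fin (n + 1)) k)), UniformBound FF,
      FamiliesFinite FF, SequencesFinite FF, DegreeBound FF] := by
  refine ⟨fun hyp => ?_, ?_⟩
  · intro q hq i j a b
    refine Pool.Agent.TH409.SH.no_curveC' _ ?_ hyp q ?_ i j a b
    · rintro _ ⟨F, hF, rfl⟩
      obtain ⟨e, he⟩ := hhom F hF
      exact ⟨e, he.map _⟩
    · rintro _ ⟨F, hF, rfl⟩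
      rw [aeval_def, MvPolynomial.eval₂_map]
      exact hq F hF
  · tfae_have 1 → 2 := by
      intro hno s r e
      exact uniform (FF : Set (MvPolynomial (Fin (n + 1)) k)) hhom
        (fun R => noRat_all σ _ hno R) s r e
    tfae_have 2 → 3 := by
      intro hb s r e L _ _ τ H _ x hx hX
      obtain ⟨B, hB⟩ := hb s r e
      exact Set.finite_of_encard_le_coe (hB L τ H x hx hX)
    tfae_have 3 → 4 := by
      intro hf r L _ _ _ x hx hX
      have τ : L →+* ℂ := (IsAlgClosed.lift : L →ₐ[ℚ] ℂ).toRingHom
      exact hf 1 r 1 L τ (Multiplicative ℤ) x hx hX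
    tfae_have 4 → 1 := by
      intro hf
      by_contra hno
      obtain ⟨r, K, iK, iN, iA, ρ, M, v, -, hX, hinf⟩ := converse_noRat σ _ hno
      exact hinf (hf r K (orb M ρ v) (iterVec_orb M ρ v) hX)
    tfae_have 1 → 5 := by
      intro hno r D K _ _ _ hD H _ ρ M v hX
      rw [orbitPts_eq (k := k)]
      exact uni_core (FF : Set (MvPolynomial (Fin (n + 1)) k)) hhom 1
        ⟨0, MvPolynomial.isHomogeneous_one _ _⟩ (noRat_all σ _ hno (r * r))
        (specDeg_of_numberField K D hD) ρ M v hX
    tfae_have 5 → 1 := by
      intro hb
      by_contra hno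
      obtain ⟨r, K, iK, iN, iA, ρ, M, v, -, hX, hinf⟩ := converse_noRat σ _ hno
      exact hinf (Set.finite_of_encard_le_coe (hb r _ K le_rfl (Multiplicative ℤ) ρ M v hX))
    tfae_finish

end Pool.Agent.Results.MP_627a61_nt.UniformIterated
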